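import Pool.Agent.Q44.Pairs

/-!
# Twin almost primes in every short interval, and `s` of them at prescribed distances: the laws

Every twin prime pair above `(3, 5)` is of the form `(6m - 1, 6m + 1)`.  Let `s ≥ 1`, `0 < η ≤ E`, `0 < θ`.  For EVERY
large `X` and ALL places `w_1, ..., w_s ≤ X ^ E` (multiples of `(2s)!` with mutual distances `≥ X ^ η`; for `s = 1` one can
take `w_1 = 0`) call `m` good if none of the `2s` numbers `6 (m + w_i) - 1`, `6 (m + w_i) + 1` has a prime factor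
`≤ X ^ (1/r)`.  In ALL intervals of length at least `X ^ θ` the numbers of the good `m` in windows follow the Poisson law
and the gaps between the good `m` are exponentially distributed, and almost all elements of an ARBITRARY set of good
`m` (for instance of the `m` for which all these pairs are twin primes) are regular points of this set.
-/

set_option autoImplicit false

namespace Pool.Agent.Results.MP_b51559_nt.PairsAtPrescribedDistances

open Finset
open Pool.Agent.Q25.UReg (Good V count pois PoissonLaw GapLaw N RightOrder ConstantDensity badScales Irregular)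
open Pool.Agent.Q44.Pairs (co ct Data)

/-- the coefficients -/
def α : Fin 2 → ℕ := ![6, 6]

/-- the constant terms: the pair `6 x - 1, 6 x + 1` at every place -/
def β (s : ℕ) (_ : Fin s) : Fin 2 → ℤ := ![-1, 1]

lemma data (s : ℕ) : Data α (β s) where
  pos j := by fin_cases j <;> decide
  cop i j := by
    fin_cases j
    · exact (isCoprime_one_right (x := ((α 0 : ℕ) : ℤ))).neg_right
    · exact isCoprime_one_right
  ntr i j j' hj _ := by
    fin_cases j <;> fin_cases j'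
    · exact absurd rfl hj
    · change ¬ (6 : ℤ) ∣ -1 - 1
      omega
    · change ¬ (6 : ℤ) ∣ 1 - -1
      omega
    · exact absurd rfl hj
  sml p hp _ := by
    refine ⟨0, fun i j h => ?_⟩
    rw [mul_zero, zero_add] at h
    have h1 : (p : ℤ) ∣ 1 := by
      fin_cases j
      · exact (dvd_neg).1 h
      · exact h
    exact hp.one_lt.ne' (Nat.dvd_one.1 (by exact_mod_cast h1))


/-- **Twin almost primes in every short interval and at `s` prescribed places.** -/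
theorem result (s : ℕ) (hs : 1 ≤ s) (E η θ : ℝ) (hE : 0 < E) (hη : 0 < η) (hθ : 0 < θ) :
    (∀ (r X m : ℕ) (w : Fin s → ℕ), Good (co s α) (ct α (β s) w) r X m ↔
      ∀ p : ℕ, p.Prime → (p : ℝ) ≤ (X : ℝ) ^ (1 / (r : ℝ)) → ∀ i, ¬ (p : ℤ) ∣ 6 * ((m : ℤ) + w i) - 1 ∧ ¬ (p : ℤ) ∣ 6 * ((m : ℤ) + w i) + 1) ∧
    (∀ (l₀ : ℕ) (x₀ ε : ℝ), 0 < ε → ∃ r₀ : ℕ, ∀ r : ℕ, r₀ ≤ r → ∃ X₀ : ℕ, ∀ X : ℕ, X₀ ≤ X →
      ∀ w : Fin s → ℕ, (∀ i, (2 * s).factorial ∣ w i ∧ (w i : ℝ) ≤ (X : ℝ) ^ E) →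
        (∀ i i', i ≠ i' → (X : ℝ) ^ η ≤ |(w i : ℝ) - w i'|) → ∀ Z Y : ℕ, (X : ℝ) ^ θ ≤ Y →
          PoissonLaw (co s α) (ct α (β s) w) r X Z Y x₀ ε ∧ GapLaw (co s α) (ct α (β s) w) r X Z Y l₀ x₀ ε) ∧
    ∃ r₀ : ℕ, ∀ r : ℕ, r₀ ≤ r → ∀ ε : ℝ, 0 < ε → ∃ c : ℝ, 0 < c ∧ ∀ δ : ℝ, 0 < δ → ∃ B X₀ : ℕ,
      ∀ X : ℕ, X₀ ≤ X → ∀ w : Fin s → ℕ, (∀ i, (2 * s).factorial ∣ w i ∧ (w i : ℝ) ≤ (X : ℝ) ^ E) →
        ∀ u Y : ℕ, (X : ℝ) ^ θ ≤ Y → Y ≤ X → Y ≤ u →
        ∀ A : Set ℕ, (∀ m ∈ A, Good (co s α) (ct α (β s) w) r X m) →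
          (N (Irregular A (V (co s α) (ct α (β s) w) r X) c δ B Y) u (u + Y) : ℝ) ≤
            ε * (Y * V (co s α) (ct α (β s) w) r X) := by

  refine ⟨fun r X m w => ?_, Pool.Agent.Q44.Pairs.laws hs (data s) E η θ hE hη hθ⟩
  rw [Pool.Agent.Q44.Pairs.good_iff]
  refine forall_congr' fun p => forall_congr' fun _ => forall_congr' fun _ => forall_congr' fun i => ?_
  rw [Fin.forall_fin_two]
  exact Iff.rfl

end Pool.Agent.Results.MP_b51559_nt.PairsAtPrescribedDistances
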