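import Pool.Agent.Q25.Arb3

set_option autoImplicit false

/-!
# Regular points of ARBITRARY sets of twin primes

Let `A` be an ARBITRARY set of primes `p` for which `p + 2` is a prime (for example the set of all of them). In every
short interval `(X, X + Y]`, `X ^ θ ≤ Y ≤ X / 2`, all but `ε Y / (log X) ^ 2` of the elements of `A` are regular points
of `A`: the numbers of elements of `A` in ALL intervals around the point of length between `(log X) ^ 2 / c` and `Y`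
have the conjectured order of magnitude, and `A` has constant density up to `δ` on both sides of the point at all but
`B (ε, δ)` dyadic scales. The same holds for sets of `m` for which `m` and `m + 2` have no prime factor up to `m ^ (1 / r)`;
and of the CONSECUTIVE ones among these there are at least `κ Y / (log X) ^ 2` in `(X, X + Y]`, even with at most `r`
prime factors.
-/

namespace Pool.Agent.Results.MP_b51559_nt.RegularPoints

open Finset Filter Pool.Agent.Q25.Arb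

/-- `(p, p + 2)` is a pair of twin primes -/
def Twin (p : ℕ) : Prop := p.Prime ∧ (p + 2).Prime

lemma pr (p : ℕ) (g : Twin p) : ∀ h ∈ ({0, 2} : Finset ℕ), (p + h).Prime := by
  intro h hh
  rw [mem_insert, mem_singleton] at hh
  rcases hh with rfl | rfl
  · exact g.1
  · exact g.2

/-- **Regular points of arbitrary sets of twin primes.** -/
theorem result (θ : ℝ) (hθ : 0 < θ) (hθ1 : θ ≤ 1) :
    (∀ ε : ℝ, 0 < ε → ∃ c : ℝ, 0 < c ∧ ∀ δ : ℝ, 0 < δ → ∃ B : ℕ, ∀ᶠ X : ℕ in atTop, ∀ Y : ℕ,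
      (X : ℝ) ^ θ ≤ Y → 2 * Y ≤ X → ∀ A : Set ℕ, (∀ p ∈ A, Twin p) →
        (N (Irregular A 2 c δ B X Y) X (X + Y) : ℝ) ≤ ε * (Y / Real.log X ^ 2)) ∧
    ∃ r₀ : ℕ, ∀ r : ℕ, r₀ ≤ r →
      (∀ ε : ℝ, 0 < ε → ∃ c : ℝ, 0 < c ∧ ∀ δ : ℝ, 0 < δ → ∃ B : ℕ, ∀ᶠ X : ℕ in atTop, ∀ Y : ℕ,
        (X : ℝ) ^ θ ≤ Y → 2 * Y ≤ X → ∀ A : Set ℕ, (∀ n ∈ A, RoughPattern ({0, 2} : Finset ℕ) r n) →
          (N (Irregular A 2 c δ B X Y) X (X + Y) : ℝ) ≤ ε * (Y / Real.log X ^ 2)) ∧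
      ∃ κ : ℝ, 0 < κ ∧ ∀ᶠ X : ℕ in atTop, ∀ Y : ℕ, (X : ℝ) ^ θ ≤ Y → Y ≤ X → κ * (Y / Real.log X ^ 2) ≤
        (N {n | ConsecutiveRough ({0, 2} : Finset ℕ) r n ∧ ∀ h ∈ ({0, 2} : Finset ℕ), (n + h).primeFactorsList.length ≤ r} X (X + Y) : ℝ) := by
  refine ⟨fun ε hε => ?_, ?_⟩
  · obtain ⟨c, hc, h⟩ := regular _ ⟨0, mem_insert_self 0 {2}⟩ (adm_pair 2 (by decide)) 2 (card_pair (by norm_num)) θ hθ hθ1 ε hε
    refine ⟨c, hc, fun δ hδ => ?_⟩
    obtain ⟨B, hB⟩ := h δ hδ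
    refine ⟨B, ?_⟩
    filter_upwards [hB] with X hX Y hXY hYX A hA
    exact hX Y hXY hYX A (fun n hn => pr _ (hA n hn))
  · obtain ⟨r₀, hr⟩ := rough_part _ ⟨0, mem_insert_self 0 {2}⟩ (adm_pair 2 (by decide)) 2 (card_pair (by norm_num)) θ hθ hθ1
    exact ⟨r₀, fun r h => (hr r h).2⟩

end Pool.Agent.Results.MP_b51559_nt.RegularPoints
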