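import Pool.Agent.Q48.RD.TupW

/-!
# Almost prime twins in intervals of length `(log x)²`

Let `g ≥ 2` be a base and `K` a large number of digits. For every `i < K` let `A i` be an arbitrary set of digits, such that the number
`|A 0| ⋯ |A (K - 1)|` of the integers `t < g ^ K` whose `i`-th digit belongs to `A i` for all `i < K` is at least `exp (- c K) g ^ K`
(`Rich`). Let `N ≤ g ^ (E K)` be arbitrary. We consider the numbers `x = N + t` with these `t`: they form a set with only
`y ^ (1 - δ)` elements in an interval of length `y = g ^ K`, which may be an arbitrarily small power of `x`.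

Let `g ≤ T ≤ g ^ (E K)`. For at least the proportion `κ min (1, T / K²)` of these `x` the interval `(x, x + T]` contains at least
`κ max (1, T / K²)` integers `p` such that `p` and `p + 2` both have at most `r` prime factors, all of them larger than
`g ^ (K / r)`. There is no condition on `N` and on the sets of digits.

For `T` of the order of `K²`, that is of `(log x)²` or smaller: a positive proportion of the intervals `(x, x + C (log x)²]` contains
an almost prime twin pair, whereas the question asks for a twin pair in `(x, 2 ^ x)`.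
-/

set_option autoImplicit false

namespace Pool.Agent.Results.MP_b51559_nt.TwinsInLogSquareIntervals

open Filter Finset
open Pool.Agent.Q315.RD Pool.Agent.Q48.RD

open Classical in
/-- The number of the `p` with `x < p ≤ x + T` such that `p` and `p + 2` have at most `r` prime factors, all larger than
`y ^ (1 / r)`. -/
noncomputable def twins (y r x T : ℕ) : ℕ := ((Ioc x (x + T)).filter fun p => AlmostPrime y r p ∧ AlmostPrime y r (p + 2)).card

lemma tuplesIn_eq (y r x T : ℕ) : tuplesIn ![0, 2] y r x T ≤ twins y r x T := by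
  classical
  unfold tuplesIn twins
  apply card_le_card_of_injOn (fun h => x + h)
  · intro h hh
    have h1 := mem_filter.1 (mem_coe.1 hh)
    have h2 := mem_Icc.1 h1.1
    rw [mem_coe]
    apply mem_filter.2
    refine ⟨mem_Ioc.2 ⟨by dsimp only; omega, by dsimp only; omega⟩, ?_⟩
    have h3 := h1.2
    rw [Fin.forall_fin_two] at h3
    exact h3
  · intro h _ h' _ h1
    simpa using h1

lemma adm : AdmZ (fun _ : Fin 2 => 1) (fun i => ((![0, 2] : Fin 2 → ℕ) i : ℤ)) := by
  have h := adm_two 0 (h := 2) (by norm_num)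
  have e : (fun i => ((![0, 2] : Fin 2 → ℕ) i : ℤ)) = ![(0 : ℤ), 0 + ((2 : ℕ) : ℤ)] := by
    funext i
    fin_cases i <;> rfl
  rw [e]
  exact h

/-- **Almost prime twins in short intervals at integers with restricted digits.** -/
theorem result (E : ℕ) :
    ∃ c : ℝ, 0 < c ∧ ∃ r₀ : ℕ, 2 ≤ r₀ ∧ ∀ r : ℕ, r₀ ≤ r → ∀ g : ℕ, 2 ≤ g → ∃ κ : ℝ, 0 < κ ∧
      ∀ᶠ K : ℕ in atTop, ∀ N T : ℕ, N ≤ g ^ (E * K) → g ≤ T → T ≤ g ^ (E * K) → ∀ A : ℕ → Finset ℕ, Rich c g K A →
        κ * min 1 ((T : ℝ) / (K : ℝ) ^ 2) * choices K A ≤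
          count g K A (fun t => κ * max 1 ((T : ℝ) / (K : ℝ) ^ 2) ≤ twins (g ^ K) r (N + t) T) := by
  obtain ⟨c, hc, r₀, hr₀, H⟩ := tupleWindow (k := 2) ![0, 2] (by decide) adm E
  refine ⟨c, hc, r₀, hr₀, fun r hr g hg => ?_⟩
  obtain ⟨κ, hκ, H⟩ := H r hr g hg
  refine ⟨κ, hκ, ?_⟩
  filter_upwards [H] with K HK
  intro N T hN hgT hT A hA
  refine (HK N T hN hgT hT A hA).trans (Nat.cast_le.2 (count_mono fun t _ hP => ?_))
  exact hP.trans (Nat.cast_le.2 (tuplesIn_eq _ _ _ _))

end Pool.Agent.Results.MP_b51559_nt.TwinsInLogSquareIntervals
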